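import Pool.Agent.Helper23.NX3.Cells

/-! Project NX2, part C, module C4: energy increments. -/

set_option autoImplicit false

open Finset
open scoped BigOperators

namespace Pool.Agent.Helper57.NX3

noncomputable section

private theorem h51_lim (C κ θ : ℝ) (hθ : 0 < θ) (hκ : 0 < κ) : ∃ z0 : ℕ, ∀ z : ℕ, z0 ≤ z →
    C * Real.log ((2 : ℝ) ^ z) ^ 2 ≤ κ * ((2 : ℝ) ^ z) ^ θ := by
  have h1 := (isLittleO_log_rpow_rpow_atTop (2 : ℝ) hθ)
  have h2 : Filter.Tendsto (fun z : ℕ => (2 : ℝ) ^ z) Filter.atTop Filter.atTop :=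
    tendsto_pow_atTop_atTop_of_one_lt (by norm_num)
  have h3 := h1.comp_tendsto h2
  have hc : 0 < κ / (|C| + 1) := by positivity
  have h4 := h3.def hc
  obtain ⟨z0, hz0⟩ := Filter.eventually_atTop.1 h4
  refine ⟨z0, fun z hz => ?_⟩
  have h5 := hz0 z hz
  simp only [Function.comp_apply, Real.rpow_two, Real.norm_eq_abs] at h5
  have h6 : (0 : ℝ) ≤ ((2 : ℝ) ^ z) ^ θ := by positivity
  rw [abs_of_nonneg (sq_nonneg _), abs_of_nonneg h6] at h5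
  have h7 : C * Real.log ((2 : ℝ) ^ z) ^ 2 ≤ (|C| + 1) * Real.log ((2 : ℝ) ^ z) ^ 2 := by
    apply mul_le_mul_of_nonneg_right _ (sq_nonneg _)
    linarith [le_abs_self C]
  have h8 : (|C| + 1) * Real.log ((2 : ℝ) ^ z) ^ 2 ≤
      (|C| + 1) * (κ / (|C| + 1) * ((2 : ℝ) ^ z) ^ θ) :=
    mul_le_mul_of_nonneg_left h5 (by positivity)
  have h9 : (|C| + 1) * (κ / (|C| + 1) * ((2 : ℝ) ^ z) ^ θ) = κ * ((2 : ℝ) ^ z) ^ θ := by
    have : (|C| + 1) ≠ 0 := by positivity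
    field_simp
  linarith

private theorem h51_lt {z b x y : ℕ} (hb : b ≤ z) (hx : x < 2 ^ z) (h : y / 2 ^ b = x / 2 ^ b) :
    y < 2 ^ z := by
  have h1 : 2 ^ z = 2 ^ (z - b) * 2 ^ b := by rw [← pow_add]; congr 1; omega
  rw [h1] at hx ⊢
  have h2 : x / 2 ^ b < 2 ^ (z - b) := Nat.div_lt_of_lt_mul (by rwa [mul_comm])
  rw [← h] at h2
  exact (Nat.div_lt_iff_lt_mul (by positivity)).1 h2

/-- sums over cells -/
private theorem h51_cells {z b M : ℕ} (hb : b ≤ z) (g : ℕ → ℝ) (f : ℕ → ℝ) (c : ℝ)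
    (h : ∀ x < 2 ^ z, |∑ y ∈ (blo b x).filter (fun y => y ≡ x [MOD M]), g y| ≤
      c * ∑ y ∈ (blo b x).filter (fun y => y ≡ x [MOD M]), f y) :
    |∑ x ∈ range (2 ^ z), g x| ≤ c * ∑ x ∈ range (2 ^ z), f x := by
  classical
  set key : ℕ → ℕ × ℕ := fun x => (x / 2 ^ b, x % M) with hkey
  have hfib : ∀ x < 2 ^ z, (range (2 ^ z)).filter (fun y => key y = key x) =
      (blo b x).filter (fun y => y ≡ x [MOD M]) := by
    intro x hx
    ext y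
    simp only [mem_filter, mem_range, hkey, Prod.mk.injEq, mem_blo, Nat.ModEq]
    constructor
    · rintro ⟨_, h1, h2⟩
      exact ⟨h1, h2⟩
    · rintro ⟨h1, h2⟩
      exact ⟨h51_lt hb hx h1, h1, h2⟩
  have hmaps : ∀ x ∈ range (2 ^ z), key x ∈ (range (2 ^ z)).image key :=
    fun x hx => mem_image_of_mem _ hx
  rw [← sum_fiberwise_of_maps_to hmaps g, ← sum_fiberwise_of_maps_to hmaps f, mul_sum]
  refine (abs_sum_le_sum_abs _ _).trans (sum_le_sum fun k hk => ?_)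
  obtain ⟨x, hx, rfl⟩ := mem_image.1 hk
  rw [hfib x (mem_range.1 hx)]
  exact h x (mem_range.1 hx)

theorem incr (M M' : ℕ) (hM : 1 ≤ M) (hM' : 1 ≤ M') (hMM : M ∣ M') (θ κ : ℝ) (hθ : 0 < θ)
    (hκ : 0 < κ) : ∃ z0 : ℕ, ∀ z : ℕ, z0 ≤ z → ∀ A : Finset ℕ, PS z A → ∀ b b' : ℕ, b' ≤ b →
    b ≤ z → ((2 : ℝ) ^ z) ^ θ ≤ 2 ^ b' →
    (∑ x ∈ range (2 ^ z), (cd (FA z A) M' b' x - cd (FA z A) M b x) ^ 2) / 2 ^ z ≤
      (∑ x ∈ range (2 ^ z), cd (FA z A) M' b' x ^ 2) / 2 ^ z -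
        (∑ x ∈ range (2 ^ z), cd (FA z A) M b x ^ 2) / 2 ^ z + κ := by
  obtain ⟨z1, hz1⟩ := h51_lim (8 * M') κ θ hθ hκ
  have hlim2 : ∃ z2 : ℕ, ∀ z : ℕ, z2 ≤ z → (M' : ℝ) ≤ ((2 : ℝ) ^ z) ^ θ := by
    have h2 : Filter.Tendsto (fun z : ℕ => ((2 : ℝ) ^ z) ^ θ) Filter.atTop Filter.atTop :=
      (tendsto_rpow_atTop hθ).comp (tendsto_pow_atTop_atTop_of_one_lt (by norm_num))
    exact Filter.eventually_atTop.1 (h2.eventually_ge_atTop (M' : ℝ))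
  obtain ⟨z2, hz2⟩ := hlim2
  refine ⟨max z1 z2, fun z hz A hA b b' hbb hbz hθb => ?_⟩
  have hzz1 := hz1 z (le_trans (le_max_left _ _) hz)
  have hzz2 := hz2 z (le_trans (le_max_right _ _) hz)
  set f := FA z A with hf
  set lz := Real.log ((2 : ℝ) ^ z) with hlz
  have hf0 : ∀ x, 0 ≤ f x := FA_nonneg z A
  have hf1 : ∀ x, f x ≤ lz := FA_le z A
  have hlz0 : 0 ≤ lz := (hf0 0).trans (hf1 0)
  have hMM' : M ≤ M' := Nat.le_of_dvd hM' hMM
  have hMMr : (M : ℝ) ≤ M' := by exact_mod_cast hMM'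
  have hb2 : (2 : ℝ) ^ b' ≤ 2 ^ b := pow_le_pow_right₀ (by norm_num) hbb
  have hMb : M ≤ 2 ^ b := by
    have : (M : ℝ) ≤ 2 ^ b := by linarith
    exact_mod_cast this
  have hr : (M : ℝ) / 2 ^ b ≤ (M' : ℝ) / 2 ^ b' := by
    apply div_le_div₀ (by positivity) hMMr (by positivity) hb2
  -- the cross term
  have hcross : |∑ x ∈ range (2 ^ z), cd f M b x * (cd f M' b' x - cd f M b x)| ≤
      (4 * lz * ((M' : ℝ) / 2 ^ b')) * ∑ x ∈ range (2 ^ z), f x := by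
    apply h51_cells (M := M) hbz
    intro x hx
    have h1 : ∑ y ∈ (blo b x).filter (fun y => y ≡ x [MOD M]),
        cd f M b y * (cd f M' b' y - cd f M b y) =
        cd f M b x * (((∑ y ∈ (blo b x).filter (fun y => y ≡ x [MOD M]), cd f M' b' y) -
          ∑ y ∈ (blo b x).filter (fun y => y ≡ x [MOD M]), f y) -
          ((∑ y ∈ (blo b x).filter (fun y => y ≡ x [MOD M]), cd f M b y) -
          ∑ y ∈ (blo b x).filter (fun y => y ≡ x [MOD M]), f y)) := by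
      rw [sub_sub_sub_cancel_right, ← sum_sub_distrib, mul_sum]
      refine sum_congr rfl fun y hy => ?_
      rw [mem_filter, mem_blo] at hy
      rw [cd_congr f hy.1 hy.2]
    have h2 := sum_cd_cell hf0 hM hM' hMM hbb x
    have h3 := sum_cd_cell hf0 hM hM (dvd_refl M) (le_refl b) x
    have h4 : (0 : ℝ) ≤ ∑ y ∈ (blo b x).filter (fun y => y ≡ x [MOD M]), f y :=
      sum_nonneg fun y _ => hf0 y
    have h5 := cd_nonneg hf0 M b x
    have h6 := cd_le hf0 hf1 hM hMb x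
    rw [h1, abs_mul, abs_of_nonneg h5]
    set S := ∑ y ∈ (blo b x).filter (fun y => y ≡ x [MOD M]), f y with hS
    have h7 : |((∑ y ∈ (blo b x).filter (fun y => y ≡ x [MOD M]), cd f M' b' y) - S) -
          ((∑ y ∈ (blo b x).filter (fun y => y ≡ x [MOD M]), cd f M b y) - S)| ≤
          2 * ((M' : ℝ) / 2 ^ b' * S) := by
      refine (abs_sub _ _).trans ?_
      have h8 : (M : ℝ) / 2 ^ b * S ≤ (M' : ℝ) / 2 ^ b' * S :=
        mul_le_mul_of_nonneg_right hr h4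
      linarith
    calc cd f M b x * |((∑ y ∈ (blo b x).filter (fun y => y ≡ x [MOD M]), cd f M' b' y) - S) -
          ((∑ y ∈ (blo b x).filter (fun y => y ≡ x [MOD M]), cd f M b y) - S)|
        ≤ (2 * lz) * (2 * ((M' : ℝ) / 2 ^ b' * S)) :=
          mul_le_mul h6 h7 (abs_nonneg _) (by positivity)
      _ = 4 * lz * ((M' : ℝ) / 2 ^ b') * S := by ring
  have hsumF : ∑ x ∈ range (2 ^ z), f x ≤ lz * 2 ^ z := by
    calc ∑ x ∈ range (2 ^ z), f x ≤ ∑ x ∈ range (2 ^ z), lz := sum_le_sum fun x _ => hf1 x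
      _ = lz * 2 ^ z := by simp [mul_comm]
  have hexp : ∑ x ∈ range (2 ^ z), (cd f M' b' x - cd f M b x) ^ 2 =
      ∑ x ∈ range (2 ^ z), cd f M' b' x ^ 2 - ∑ x ∈ range (2 ^ z), cd f M b x ^ 2 -
      2 * ∑ x ∈ range (2 ^ z), cd f M b x * (cd f M' b' x - cd f M b x) := by
    rw [mul_sum, ← sum_sub_distrib, ← sum_sub_distrib]
    exact sum_congr rfl fun x _ => by ring
  have h2z : (0 : ℝ) < 2 ^ z := by positivity
  have hb'pos : (0 : ℝ) < 2 ^ b' := by positivity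
  have hpos : (0 : ℝ) < ((2 : ℝ) ^ z) ^ θ := by positivity
  have hbound : 2 * ((4 * lz * ((M' : ℝ) / 2 ^ b')) * ∑ x ∈ range (2 ^ z), f x) ≤ κ * 2 ^ z := by
    have h1 : (4 * lz * ((M' : ℝ) / 2 ^ b')) * ∑ x ∈ range (2 ^ z), f x ≤
        (4 * lz * ((M' : ℝ) / 2 ^ b')) * (lz * 2 ^ z) :=
      mul_le_mul_of_nonneg_left hsumF (by positivity)
    have h2 : (M' : ℝ) / 2 ^ b' ≤ M' / ((2 : ℝ) ^ z) ^ θ :=
      div_le_div_of_nonneg_left (by positivity) hpos hθb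
    have h3 : (4 * lz * ((M' : ℝ) / 2 ^ b')) * (lz * 2 ^ z) ≤
        (4 * lz * (M' / ((2 : ℝ) ^ z) ^ θ)) * (lz * 2 ^ z) := by
      apply mul_le_mul_of_nonneg_right _ (by positivity)
      exact mul_le_mul_of_nonneg_left h2 (by positivity)
    have h4 : 2 * ((4 * lz * (M' / ((2 : ℝ) ^ z) ^ θ)) * (lz * 2 ^ z)) =
        (8 * M' * lz ^ 2) / ((2 : ℝ) ^ z) ^ θ * 2 ^ z := by
      field_simp
      ring
    have h5 : (8 * M' * lz ^ 2) / ((2 : ℝ) ^ z) ^ θ ≤ κ := by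
      rw [div_le_iff₀ hpos]
      exact hzz1
    have h6 : (8 * M' * lz ^ 2) / ((2 : ℝ) ^ z) ^ θ * 2 ^ z ≤ κ * 2 ^ z :=
      mul_le_mul_of_nonneg_right h5 h2z.le
    linarith
  have hab := abs_le.1 hcross
  rw [hexp]
  have hfin : -(2 * ∑ x ∈ range (2 ^ z), cd f M b x * (cd f M' b' x - cd f M b x)) ≤ κ * 2 ^ z := by
    linarith [hab.1]
  rw [← sub_div, div_le_iff₀ h2z, add_mul, div_mul_cancel₀ _ h2z.ne']
  linarith

theorem phi_eq {M M' : ℕ} (hM : 1 ≤ M) (hM' : 1 ≤ M') (h : M'.primeFactors = M.primeFactors) :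
    (M'.totient : ℝ) / M' = (M.totient : ℝ) / M := by
  have h1 : ∀ n : ℕ, 1 ≤ n → (n.totient : ℝ) / n = ∏ p ∈ n.primeFactors, (1 - (p : ℝ)⁻¹) := by
    intro n hn
    have h2 := Nat.totient_eq_mul_prod_factors n
    have h3 : (n.totient : ℝ) = n * ∏ p ∈ n.primeFactors, (1 - (p : ℝ)⁻¹) := by
      have := congrArg (fun q : ℚ => (q : ℝ)) h2
      push_cast at this
      exact this
    have h4 : (n : ℝ) ≠ 0 := by
      have : (0 : ℝ) < n := by exact_mod_cast hn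
      exact this.ne'
    rw [h3, mul_div_cancel_left₀ _ h4]
  rw [h1 M' hM', h1 M hM, h]

/-- energies are monotone, up to a small error -/
theorem en_mono (M M' : ℕ) (hM : 1 ≤ M) (hM' : 1 ≤ M') (hMM : M ∣ M')
    (hpf : M'.primeFactors = M.primeFactors) (θ κ : ℝ) (hθ : 0 < θ)
    (hκ : 0 < κ) : ∃ z0 : ℕ, ∀ z : ℕ, z0 ≤ z → ∀ A : Finset ℕ, PS z A → ∀ b b' : ℕ, b' ≤ b →
    b ≤ z → ((2 : ℝ) ^ z) ^ θ ≤ 2 ^ b' → En z A M b ≤ En z A M' b' + κ := by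
  obtain ⟨z0, hz0⟩ := incr M M' hM hM' hMM θ κ hθ hκ
  refine ⟨z0, fun z hz A hA b b' hbb hbz hθb => ?_⟩
  have h1 := hz0 z hz A hA b b' hbb hbz hθb
  have h2 : 0 ≤ (∑ x ∈ range (2 ^ z), (cd (FA z A) M' b' x - cd (FA z A) M b x) ^ 2) / 2 ^ z := by
    apply div_nonneg (sum_nonneg fun x _ => sq_nonneg _) (by positivity)
  unfold En
  rw [phi_eq hM hM' hpf]
  have h3 : (0 : ℝ) ≤ (M.totient : ℝ) / M := by positivity
  have h4 : (M.totient : ℝ) / M ≤ 1 := by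
    rw [div_le_one (by exact_mod_cast hM)]
    exact_mod_cast Nat.totient_le M
  have h5 : (∑ x ∈ range (2 ^ z), cd (FA z A) M b x ^ 2) / 2 ^ z ≤
      (∑ x ∈ range (2 ^ z), cd (FA z A) M' b' x ^ 2) / 2 ^ z + κ := by linarith
  calc (M.totient : ℝ) / M * ((∑ x ∈ range (2 ^ z), cd (FA z A) M b x ^ 2) / 2 ^ z)
      ≤ (M.totient : ℝ) / M * ((∑ x ∈ range (2 ^ z), cd (FA z A) M' b' x ^ 2) / 2 ^ z + κ) :=
        mul_le_mul_of_nonneg_left h5 h3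
    _ = (M.totient : ℝ) / M * ((∑ x ∈ range (2 ^ z), cd (FA z A) M' b' x ^ 2) / 2 ^ z) +
        (M.totient : ℝ) / M * κ := by ring
    _ ≤ (M.totient : ℝ) / M * ((∑ x ∈ range (2 ^ z), cd (FA z A) M' b' x ^ 2) / 2 ^ z) + κ := by
        have : (M.totient : ℝ) / M * κ ≤ 1 * κ := mul_le_mul_of_nonneg_right h4 hκ.le
        linarith

end

end Pool.Agent.Helper57.NX3
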